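import Pool.Agent.MP_1246c0_nt.H25.SpecA
import Pool.Agent.MP_1246c0_nt.H84.QR

/-! Elementary properties of cocycles. -/

namespace Pool.Agent.MP_1246c0_nt.H25

open Finset Pool.Agent.MP_db5b97_nt.H85
open Pool.Agent.MP_1246c0_nt.H12

namespace CC

section Gen

variable {M : Type} [AddCommGroup M] {A : AddSubgroup M} {T : Module.End ℤ M} {d n : ℕ}

theorem mem_eq {x y : M} (h : y ∈ A) (e : x = y) : x ∈ A := e ▸ h

theorem pow_mem (hT : ∀ x ∈ A, T x ∈ A) (k : ℕ) {x : M} (hx : x ∈ A) : (T ^ k) x ∈ A := by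
  induction k with
  | zero => simpa using hx
  | succ k ih => rw [pow_succ', Module.End.mul_apply]; exact hT _ ih

theorem acn_apply (h : Ga) (x : M) :
    acn d n T h x = ((-1 : ℤ) ^ (chi d h).val) • (T ^ (kap n h).val) x := by
  unfold acn
  rcases neg_one_pow_eq_or (Module.End ℤ M) (chi d h).val with _ | _ <;>
  rcases Nat.even_or_odd (chi d h).val with e | e <;> simp [e.neg_one_pow]

theorem acn_mem (hT : ∀ x ∈ A, T x ∈ A) (h : Ga) {x : M} (hx : x ∈ A) : acn d n T h x ∈ A := by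
  rw [acn_apply]
  exact A.zsmul_mem (pow_mem hT _ hx) _

theorem pow_mul_sub (hA : Ad T n A) (q : ℕ) (x : M) : (T ^ (2 ^ n * q)) x - x ∈ A := by
  induction q with
  | zero => simp
  | succ q ih =>
    refine mem_eq (A.add_mem (hA.2 ((T ^ (2 ^ n * q)) x)) ih) ?_
    rw [Nat.mul_succ, add_comm, pow_add, Module.End.mul_apply]
    abel

theorem pow_mod (hA : Ad T n A) (m : ℕ) (x : M) : (T ^ m) x - (T ^ (m % 2 ^ n)) x ∈ A := by
  refine mem_eq (pow_mul_sub hA (m / 2 ^ n) ((T ^ (m % 2 ^ n)) x)) ?_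
  rw [← Module.End.mul_apply, ← pow_add, Nat.div_add_mod]

theorem acn_can (hA : Ad T n A) (h : Ga) (x : M) (hx : acn d n T h x ∈ A) : x ∈ A := by
  have h1 : (T ^ (kap n h).val) x ∈ A := by
    rw [acn_apply] at hx
    rcases neg_one_pow_eq_or ℤ (chi d h).val with e | e
    · simpa [e] using hx
    · simpa [e] using hx
  have h2 := pow_mem hA.1 (2 ^ n - (kap n h).val) h1
  rw [← Module.End.mul_apply, ← pow_add, Nat.sub_add_cancel (ZMod.val_lt _).le] at h2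
  exact mem_eq (A.sub_mem h2 (hA.2 x)) (by abel)

theorem sgn_add (a b : F2) : (-1 : ℤ) ^ (a + b).val = (-1) ^ a.val * (-1) ^ b.val := by
  revert a b
  decide

theorem acn_mul (z : Ax0) (hA : Ad T n A) (h h' : Ga) (x : M) :
    acn d n T (h * h') x - acn d n T h (acn d n T h' x) ∈ A := by
  rw [acn_apply, acn_apply, acn_apply, z.cmul, z.kmul, sgn_add, map_zsmul, smul_smul,
    ← Module.End.mul_apply, ← pow_add T, ← smul_sub, ZMod.val_add]
  exact A.zsmul_mem (mem_eq (A.neg_mem (pow_mod hA _ x)) (neg_sub _ _).symm) _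

theorem chi_one (z : Ax0) (m : ℤ) : chi m 1 = 0 := by
  have := z.cmul m 1 1
  rw [mul_one] at this
  exact left_eq_add.1 this

theorem kap_one (z : Ax0) (n : ℕ) : kap n 1 = 0 := by
  have := z.kmul n 1 1
  rw [mul_one] at this
  exact left_eq_add.1 this

theorem acn_triv {h : Ga} (h1 : chi d h = 0) (h2 : kap n h = 0) (x : M) : acn d n T h x = x := by
  rw [acn_apply, h1, h2]
  simp

theorem acn_neg {h : Ga} (h1 : chi d h = 1) (h2 : kap n h = 0) (x : M) : acn d n T h x = -x := by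
  have e : (1 : F2).val = 1 := by decide
  rw [acn_apply, h1, h2, e]
  simp

variable {Φ : Frm} {P : ℕ} {ψ ψ' : Ga → M}

theorem one_mem (z : Ax0) (h : Cc Φ d P n T A ψ) : ψ 1 ∈ A := by
  have := h.coc 1 1
  rw [mul_one, acn_triv (chi_one z _) (kap_one z _)] at this
  exact mem_eq (A.neg_mem this) (by abel)

theorem mono {A' : AddSubgroup M} (hA : A ≤ A') (h : Cc Φ d P n T A ψ) : Cc Φ d P n T A' ψ where
  coc := fun g g' => hA (h.coc g g')
  inv := by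
    obtain ⟨U, hU, hu⟩ := h.inv
    exact ⟨U, hU, fun g u hu' => hA (hu g u hu')⟩
  unr := fun l h1 h2 => hA (h.unr l h1 h2)
  nrm := hA h.nrm
  two := fun h1 => hA (h.two h1)
  four := hA h.four

theorem Eo_add (p : Ga × Ga) : Eo d n T (ψ + ψ') p = Eo d n T ψ p + Eo d n T ψ' p := by
  simp only [Eo, Pi.add_apply, map_add, smul_add]
  abel

theorem Eo_neg (p : Ga × Ga) : Eo d n T (-ψ) p = -Eo d n T ψ p := by
  simp only [Eo, Pi.neg_apply, map_neg, smul_neg]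
  abel

theorem add (z : Ax0) (h : Cc Φ d P n T A ψ) (h' : Cc Φ d P n T A ψ') :
    Cc Φ d P n T A (ψ + ψ') where
  coc := fun g g' => mem_eq (A.add_mem (h.coc g g') (h'.coc g g')) (by
    simp only [Pi.add_apply, map_add]
    abel)
  inv := by
    obtain ⟨U, hU, hu⟩ := h.inv
    obtain ⟨V, hV, hv⟩ := h'.inv
    refine ⟨U ⊓ V, z.opi U V hU hV, fun g u hu' =>
      mem_eq (A.add_mem (hu g u hu'.1) (hv g u hu'.2)) ?_⟩
    simp only [Pi.add_apply]
    abel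
  unr := fun l h1 h2 => A.add_mem (h.unr l h1 h2) (h'.unr l h1 h2)
  nrm := A.add_mem h.nrm h'.nrm
  two := fun h1 => mem_eq (A.add_mem (h.two h1) (h'.two h1)) (Eo_add _)
  four := mem_eq (A.add_mem h.four h'.four) (Eo_add _)

theorem neg (h : Cc Φ d P n T A ψ) : Cc Φ d P n T A (-ψ) where
  coc := fun g g' => mem_eq (A.neg_mem (h.coc g g')) (by
    simp only [Pi.neg_apply, map_neg]
    abel)
  inv := by
    obtain ⟨U, hU, hu⟩ := h.inv
    refine ⟨U, hU, fun g u hu' => mem_eq (A.neg_mem (hu g u hu')) ?_⟩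
    simp only [Pi.neg_apply]
    abel
  unr := fun l h1 h2 => A.neg_mem (h.unr l h1 h2)
  nrm := A.neg_mem h.nrm
  two := fun h1 => mem_eq (A.neg_mem (h.two h1)) (Eo_neg _)
  four := mem_eq (A.neg_mem h.four) (Eo_neg _)

/-- a general principle of transfer -/
theorem trans {M' : Type} [AddCommGroup M'] {A' : AddSubgroup M'} {T' : Module.End ℤ M'} {n' : ℕ}
    {φ : Ga → M'} (L : M →+ M' ⧸ A') (hL : ∀ x ∈ A, L x = 0)
    (hφ : ∀ g, L (ψ g) = (φ g : M' ⧸ A'))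
    (ha : ∀ g g', L (acn d n T g (ψ g')) = (acn d n' T' g (φ g') : M' ⧸ A'))
    (h : Cc Φ d P n T A ψ) : Cc Φ d P n' T' A' φ := by
  have hE : ∀ p, Eo d n T ψ p ∈ A → Eo d n' T' φ p ∈ A' := by
    intro p hp
    have := hL _ hp
    rw [← QuotientAddGroup.eq_zero_iff]
    simpa only [Eo, map_sub, map_nsmul, hφ, ha, QuotientAddGroup.mk_sub,
      QuotientAddGroup.mk_nsmul] using this
  have hv : ∀ g, ψ g ∈ A → φ g ∈ A' := fun g hg => by
    rw [← QuotientAddGroup.eq_zero_iff, ← hφ]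
    exact hL _ hg
  refine ⟨fun g g' => ?_, ?_, fun l h1 h2 => hv _ (h.unr l h1 h2), hv _ h.nrm,
    fun h1 => hE _ (h.two h1), hE _ h.four⟩
  · have := hL _ (h.coc g g')
    rw [← QuotientAddGroup.eq_zero_iff]
    simpa only [map_sub, hφ, ha, QuotientAddGroup.mk_sub] using this
  · obtain ⟨U, hU, hu⟩ := h.inv
    refine ⟨U, hU, fun g u hu' => ?_⟩
    have := hL _ (hu g u hu')
    rw [← QuotientAddGroup.eq_zero_iff]
    simpa only [map_sub, hφ, QuotientAddGroup.mk_sub] using this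

theorem mk_eq {x y : M} (h : x - y ∈ A) : (x : M ⧸ A) = y :=
  QuotientAddGroup.eq_iff_sub_mem.2 h

theorem cng (hT : ∀ x ∈ A, T x ∈ A) (hψ : ∀ h, ψ' h - ψ h ∈ A) (h : Cc Φ d P n T A ψ) :
    Cc Φ d P n T A ψ' :=
  trans (QuotientAddGroup.mk' A) (fun _ hx => (QuotientAddGroup.eq_zero_iff _).2 hx)
    (fun g => (mk_eq (hψ g)).symm)
    (fun g g' => (mk_eq (mem_eq (acn_mem hT g (hψ g')) (map_sub _ _ _).symm)).symm) h

theorem map {M' : Type} [AddCommGroup M'] {A' : AddSubgroup M'} {T' : Module.End ℤ M'}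
    {lam : M → M'} (hT : ∀ x ∈ A', T' x ∈ A') (h1 : ∀ x ∈ A, lam x ∈ A')
    (h2 : ∀ x y, lam (x + y) - lam x - lam y ∈ A') (h3 : ∀ x, lam (T x) - T' (lam x) ∈ A')
    (h : Cc Φ d P n T A ψ) : Cc Φ d P n T' A' fun h => lam (ψ h) := by
  let L : M →+ M' ⧸ A' := AddMonoidHom.mk' (fun x => (lam x : M' ⧸ A')) fun x y => by
    rw [← QuotientAddGroup.mk_add]
    exact mk_eq (mem_eq (h2 x y) (by abel))
  have h4 : ∀ (k : ℕ) (x : M), lam ((T ^ k) x) - (T' ^ k) (lam x) ∈ A' := by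
    intro k x
    induction k with
    | zero => simp
    | succ k ih =>
      refine mem_eq (A'.add_mem (h3 ((T ^ k) x)) (hT _ ih)) ?_
      simp only [pow_succ', Module.End.mul_apply, map_sub]
      abel
  refine trans L (fun x hx => (QuotientAddGroup.eq_zero_iff _).2 (h1 x hx)) (fun _ => rfl)
    (fun g g' => ?_) h
  rw [acn_apply, acn_apply, map_zsmul, QuotientAddGroup.mk_zsmul]
  congr 1
  exact mk_eq (h4 _ _)

theorem acn_lvl (z : Ax0) {n' : ℕ} (hn : n ≤ n') (hA : Ad T n A) (g : Ga) (x : M) :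
    acn d n' T g x - acn d n T g x ∈ A := by
  rw [acn_apply, acn_apply, ← smul_sub, z.kcomp n n' g hn, ZMod.val_natCast]
  exact A.zsmul_mem (pow_mod hA _ x) _

theorem lvl (z : Ax0) {n' : ℕ} (hA : Ad T n A) (hA' : Ad T n' A) (h : Cc Φ d P n T A ψ) :
    Cc Φ d P n' T A ψ := by
  refine trans (QuotientAddGroup.mk' A) (fun _ hx => (QuotientAddGroup.eq_zero_iff _).2 hx)
    (fun _ => rfl) (fun g g' => ?_) h
  rcases le_total n n' with hn | hn
  · exact (mk_eq (acn_lvl z hn hA g _)).symm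
  · exact mk_eq (acn_lvl z hn hA' g _)

theorem Mu_map (f : Module.End ℤ M) {j : ℕ} {x : M} (h : x ∈ Mu M j) : f x ∈ Mu M j := by
  obtain ⟨y, rfl⟩ := mem_Mu.1 h
  exact mem_Mu.2 ⟨f y, (map_nsmul f _ _).symm⟩

theorem Mu_anti {i j : ℕ} (hij : i ≤ j) {x : M} (h : x ∈ Mu M j) : x ∈ Mu M i := by
  obtain ⟨y, rfl⟩ := mem_Mu.1 h
  refine mem_Mu.2 ⟨2 ^ (j - i) • y, ?_⟩
  rw [smul_smul, ← pow_add, Nat.add_sub_cancel' hij]

theorem Mu_two {j : ℕ} {x : M} (h : x ∈ Mu M j) : 2 • x ∈ Mu M (j + 1) := by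
  obtain ⟨y, rfl⟩ := mem_Mu.1 h
  refine mem_Mu.2 ⟨y, ?_⟩
  rw [smul_smul, pow_succ']

theorem two_mem (x : M) : 2 • x ∈ Mu M 1 := mem_Mu.2 ⟨x, by rw [pow_one]⟩

theorem Mu_can (tf : ∀ x : M, 2 • x = 0 → x = 0) {i j : ℕ} {x : M} (h : 2 ^ i • x ∈ Mu M (i + j)) :
    x ∈ Mu M j := by
  have h1 : ∀ (i : ℕ) (x : M), 2 ^ i • x = 0 → x = 0 := by
    intro i
    induction i with
    | zero => simp
    | succ i ih =>
      intro x hx
      rw [pow_succ, ← smul_smul] at hx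
      exact tf x (ih _ hx)
  obtain ⟨y, hy⟩ := mem_Mu.1 h
  refine mem_Mu.2 ⟨y, sub_eq_zero.1 (h1 i _ ?_)⟩
  rw [smul_sub, smul_smul, ← pow_add, hy, sub_self]

theorem dbl {j : ℕ} (h : Cc Φ d P n T (Mu M j) ψ) :
    Cc Φ d P n T (Mu M (j + 1)) fun h => 2 • ψ h :=
  map (lam := fun x => 2 • x) (fun _ hx => Mu_map T hx) (fun _ hx => Mu_two hx)
    (fun x y => mem_eq (AddSubgroup.zero_mem _) (by rw [smul_add]; abel))
    (fun x => mem_eq (AddSubgroup.zero_mem _) (by rw [map_nsmul, sub_self])) h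

theorem hlf {i j : ℕ} (tf : ∀ x : M, 2 • x = 0 → x = 0)
    (h : Cc Φ d P n T (Mu M (i + j)) fun h => 2 ^ i • ψ h) : Cc Φ d P n T (Mu M j) ψ := by
  have hE : ∀ p, Eo d n T (fun h => 2 ^ i • ψ h) p = 2 ^ i • Eo d n T ψ p := by
    intro p
    simp only [Eo, map_nsmul, smul_sub]
    rw [smul_comm]
  refine ⟨fun g g' => Mu_can tf (mem_eq (h.coc g g') ?_), ?_,
    fun l h1 h2 => Mu_can tf (h.unr l h1 h2), Mu_can tf h.nrm,
    fun h1 => Mu_can tf (mem_eq (h.two h1) (hE _).symm), Mu_can tf (mem_eq h.four (hE _).symm)⟩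
  · simp only [map_nsmul, smul_sub]
  · obtain ⟨U, hU, hu⟩ := h.inv
    exact ⟨U, hU, fun g u hu' => Mu_can tf (mem_eq (hu g u hu') (smul_sub _ _ _))⟩

theorem odd {l : ℕ} (X : Ax1 Φ) (h : Cc Φ d P n T A ψ) (hl : Gd 0 l)
    (hc : chi d (Φ.sg l) = 1) : Eo d n T ψ (Φ.fr l, Φ.sg l) ∈ A := by
  obtain ⟨U, hU, hu⟩ := h.inv
  have hk := X.v.ksg n l hl.1
  have hs : ∀ k : ℕ, chi d (Φ.sg l ^ (2 * k + 1)) = 1 ∧ kap n (Φ.sg l ^ (2 * k + 1)) = 0 ∧
      ψ (Φ.sg l ^ (2 * k + 1)) - ψ (Φ.sg l) ∈ A := by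
    intro k
    induction k with
    | zero => simp [hc, hk]
    | succ k ih =>
      have e : Φ.sg l ^ (2 * (k + 1) + 1) = Φ.sg l * (Φ.sg l * Φ.sg l ^ (2 * k + 1)) := by
        rw [← pow_succ', ← pow_succ']
        rfl
      rw [e]
      refine ⟨?_, ?_, ?_⟩
      · rw [X.z.cmul, X.z.cmul, ih.1, hc]
        decide
      · rw [X.z.kmul, X.z.kmul, ih.2.1, hk]
        simp
      · have h1 := h.coc (Φ.sg l) (Φ.sg l * Φ.sg l ^ (2 * k + 1))
        have h2 := h.coc (Φ.sg l) (Φ.sg l ^ (2 * k + 1))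
        rw [acn_neg hc hk] at h1 h2
        exact mem_eq (A.add_mem (A.sub_mem h1 h2) ih.2.2) (by abel)
  obtain ⟨k, hk'⟩ : Odd l := Nat.odd_iff.2 (QR.odd hl)
  obtain ⟨h1, h2, h3⟩ := hs k
  rw [← hk'] at h1 h2 h3
  have h4 := hU.1.conj_mem _ (X.r l U hl hU) (Φ.sg l ^ l * Φ.fr l)⁻¹
  have h5 := hu (Φ.sg l ^ l * Φ.fr l) _ h4
  have e : Φ.sg l ^ l * Φ.fr l * ((Φ.sg l ^ l * Φ.fr l)⁻¹ *
      (Φ.fr l * Φ.sg l * (Φ.fr l)⁻¹ * (Φ.sg l ^ l)⁻¹) * (Φ.sg l ^ l * Φ.fr l)⁻¹⁻¹) =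
      Φ.fr l * Φ.sg l := by group
  rw [e] at h5
  have h6 := h.coc (Φ.fr l) (Φ.sg l)
  have h7 := h.coc (Φ.sg l ^ l) (Φ.fr l)
  rw [acn_neg h1 h2] at h7
  refine mem_eq (A.add_mem (A.add_mem (A.sub_mem h5 h6) h7) h3) ?_
  simp only [Eo, two_smul]
  abel

theorem inf (X : Ax1 Φ) (hA : Ad T n A) (h : Cc Φ d P n T A ψ) : Eo d n T ψ (Φ.cj, 1) ∈ A := by
  have h1 := h.coc Φ.cj Φ.cj
  rw [X.v.cj2, acn_triv (X.v.ccj d) (X.v.kcj n)] at h1
  refine mem_eq (A.add_mem (A.neg_mem h1) (acn_mem (d := d) (n := n) hA.1 Φ.cj (one_mem X.z h))) ?_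
  simp only [Eo, two_smul]
  abel

theorem det (hD : SDEC) {W : AddSubgroup M} (X : Ax1 Φ) (hA : Ad T n A) (hW : A ≤ W)
    (hT : ∀ x ∈ W, T x ∈ W) (hP : P.Prime) (h5 : P % 8 = 5) (h : Cc Φ d P n T A ψ)
    (hs : ∀ l, l.Prime → l ≠ P → chi d (Φ.sg l) = 1 → ψ (Φ.sg l) ∈ W) (g : Ga) : ψ g ∈ W := by
  have h1 : ψ 1 ∈ W := hW (one_mem X.z h)
  let H : Subgroup Ga :=
    { carrier := {g | ψ g ∈ W}
      one_mem' := h1
      mul_mem' := fun {a b} ha hb => mem_eq (W.add_mem (W.add_mem (hW (h.coc a b)) ha)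
        (acn_mem (d := d) (n := n) hT a hb)) (by abel)
      inv_mem' := fun {a} ha => by
        have h2 := hW (h.coc a a⁻¹)
        rw [mul_inv_cancel] at h2
        exact acn_can (d := d) ⟨hT, fun x => hW (hA.2 x)⟩ a _
          (mem_eq (W.sub_mem (W.sub_mem h1 ha) h2) (by abel)) }
  obtain ⟨U, hU, hu⟩ := h.inv
  have hH : H = ⊤ := by
    refine X.g U H hU (fun u hu' => ?_) (fun l hl => ?_) ⟨Φ.fr P, hW h.nrm, ?_⟩
    · have h2 := hW (hu 1 u hu')
      rw [one_mul] at h2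
      exact mem_eq (W.add_mem h2 h1) (by abel)
    · by_cases e : l = P
      · exact hW (h.unr l hl (Or.inr e))
      · rcases QR.f2_cases (chi d (Φ.sg l)) with e' | e'
        · exact hW (h.unr l hl (Or.inl e'))
        · exact hs l hl e e'
    · obtain ⟨o, ho, e⟩ := X.v.kfr 1 P ⟨hP, by omega, Nat.zero_le _⟩
      rw [e, (hD.cls P (by omega) hP.one_lt).1.2 (Or.inr h5), pow_zero, one_mul]
      exact (ZMod.natCast_eq_one_iff_odd (n := o)).2 ho
  have : g ∈ H := hH ▸ Subgroup.mem_top g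
  exact this

end Gen

section Ad

variable {M : Type} [AddCommGroup M] {T s u : Module.End ℤ M} {a : ℕ}

theorem pow_Mu (h : Adm T s u a) (i : ℕ) (x : M) : (T ^ 2 ^ (a + i)) x - x ∈ Mu M (i + 1) := by
  induction i generalizing x with
  | zero =>
    exact mem_eq ((Mu M 1).add_mem (Mu_anti one_le_two (h.hs x)) (two_mem (s x))) (by simp)
  | succ i ih =>
    obtain ⟨y, hy⟩ := mem_Mu.1 (ih x)
    obtain ⟨y', hy'⟩ := mem_Mu.1 (ih y)
    have h1 : (T ^ 2 ^ (a + i)) (2 ^ (i + 1) • y) - 2 ^ (i + 1) • y ∈ Mu M (i + 1 + 1) := by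
      rw [map_nsmul, ← smul_sub, ← hy', smul_smul, ← pow_add]
      exact Mu_anti (by omega) (mem_Mu.2 ⟨y', rfl⟩)
    rw [hy] at h1
    refine mem_eq ((Mu M _).add_mem h1 (Mu_two (ih x))) ?_
    rw [← add_assoc, pow_succ 2, pow_mul, sq, Module.End.mul_apply, map_sub, two_smul]
    abel

theorem pow_Mu' (h : Adm T s u a) {j n : ℕ} (hn : a + j ≤ n + 1) (x : M) :
    (T ^ 2 ^ n) x - x ∈ Mu M j := by
  rcases Nat.eq_zero_or_pos j with rfl | hj
  · exact mem_Mu.2 ⟨_, by rw [pow_zero, one_smul]⟩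
  · obtain ⟨i, rfl⟩ : ∃ i, n = a + i := ⟨n - a, by omega⟩
    exact Mu_anti (by omega) (pow_Mu h i x)

theorem gs_Mu (h : Adm T s u a) {n : ℕ} (x : M) (hn : a < n) : gs T (2 ^ n) x ∈ Mu M 1 := by
  obtain ⟨m, rfl⟩ : ∃ m, n = m + 1 := ⟨n - 1, by omega⟩
  have e : gs T (2 ^ (m + 1)) = gs T (2 ^ m) + T ^ 2 ^ m * gs T (2 ^ m) := by
    unfold gs
    rw [pow_succ, mul_two, Finset.sum_range_add, Finset.mul_sum]
    simp only [pow_add]
  refine mem_eq ((Mu M 1).add_mem (pow_Mu' h (j := 1) (n := m) (by omega) (gs T (2 ^ m) x))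
    (two_mem (gs T (2 ^ m) x))) ?_
  rw [e, LinearMap.add_apply, Module.End.mul_apply, two_smul]
  abel

theorem frob {R : Type} [CommRing R] (x : R) (k : ℕ) :
    ∃ r, x ^ 2 ^ k + 1 = (x - 1) ^ 2 ^ k + 2 * r := by
  induction k with
  | zero => exact ⟨1, by ring⟩
  | succ k ih =>
    obtain ⟨r, hr⟩ := ih
    refine ⟨2 * (x - 1) ^ 2 ^ k * r + 2 * r ^ 2 - x ^ 2 ^ k, ?_⟩
    rw [pow_succ 2, pow_mul, pow_mul]
    linear_combination (x ^ 2 ^ k + 1 + ((x - 1) ^ 2 ^ k + 2 * r)) * hr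

theorem quo {R : Type} [CommRing R] (x : R) (i m : ℕ) :
    ∃ q, (x ^ 2 ^ i - 1) * ((x - 1) ^ (2 ^ (i + m) - 2 ^ i) + 2 * q) = x ^ 2 ^ (i + m) - 1 := by
  induction m with
  | zero => exact ⟨0, by simp⟩
  | succ m ih =>
    obtain ⟨q, hq⟩ := ih
    obtain ⟨r, hr⟩ := frob x (i + m)
    have hle : 2 ^ i ≤ 2 ^ (i + m) := Nat.pow_le_pow_right two_pos (by omega)
    have e : 2 ^ (i + (m + 1)) - 2 ^ i = (2 ^ (i + m) - 2 ^ i) + 2 ^ (i + m) := by
      rw [← add_assoc, pow_succ]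
      omega
    refine ⟨(x - 1) ^ (2 ^ (i + m) - 2 ^ i) * r + q * (x - 1) ^ 2 ^ (i + m) + 2 * q * r, ?_⟩
    rw [e, pow_add (x - 1), ← add_assoc i, pow_succ 2, pow_mul]
    linear_combination (x ^ 2 ^ (i + m) + 1) * hq -
      (x ^ 2 ^ i - 1) * ((x - 1) ^ (2 ^ (i + m) - 2 ^ i) + 2 * q) * hr

theorem comm_u (h : Adm T s u a) (k : ℕ) (x : M) : (T ^ k) (u x) - u ((T ^ k) x) ∈ Mu M 2 := by
  induction k with
  | zero => simp
  | succ k ih =>
    refine mem_eq ((Mu M 2).add_mem (Mu_map T ih) (h.tu ((T ^ k) x))) ?_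
    simp only [pow_succ', Module.End.mul_apply, map_sub]
    abel

theorem ex_v (h : Adm T s u a) {i : ℕ} (hi : i < a) : ∃ v : Module.End ℤ M,
    (∀ x, v x - ((T - 1) ^ (2 ^ (a - 1) - 2 ^ i) * u : Module.End ℤ M) x ∈ Mu M 1) ∧
    (∀ x, v ((T ^ 2 ^ i) x - x) - 2 • x ∈ Mu M 2) ∧
    ∀ x, (T ^ 2 ^ i) (v x) - v x - 2 • x ∈ Mu M 2 := by
  obtain ⟨q, hq⟩ := quo (Polynomial.X : Polynomial ℤ) i (a - 1 - i)
  rw [show i + (a - 1 - i) = a - 1 by omega] at hq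
  have h1 := congrArg (Polynomial.aeval T) hq
  rw [mul_comm] at hq
  have h2 := congrArg (Polynomial.aeval T) hq
  simp only [map_mul, map_sub, map_add, map_pow, Polynomial.aeval_X, map_one, map_ofNat] at h1 h2
  generalize Polynomial.aeval T q = Q at h1 h2
  have h3 : ∀ x, (T ^ 2 ^ (a - 1)) (u x) - u x - 2 • x ∈ Mu M 2 := fun x =>
    mem_eq ((Mu M 2).add_mem (comm_u h (2 ^ (a - 1)) x) (h.hu (by omega) x)) (by
      rw [map_sub]
      abel)
  generalize hG : (T - 1) ^ (2 ^ (a - 1) - 2 ^ i) + 2 * Q = G at h1 h2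
  refine ⟨G * u, fun x => mem_eq (two_mem (Q (u x))) ?_, fun x => ?_, fun x => ?_⟩
  · rw [← hG, two_mul, two_smul]
    simp only [Module.End.mul_apply, LinearMap.add_apply]
    abel
  · have h4 := LinearMap.congr_fun h2 (u x)
    simp only [Module.End.mul_apply, LinearMap.sub_apply, Module.End.one_apply, map_sub] at h4
    refine mem_eq ((Mu M 2).sub_mem (h3 x) (Mu_map G (comm_u h (2 ^ i) x))) ?_
    simp only [Module.End.mul_apply, map_sub, ← h4]
    abel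
  · have h4 := LinearMap.congr_fun h1 (u x)
    simp only [Module.End.mul_apply, LinearMap.sub_apply, Module.End.one_apply] at h4
    refine mem_eq (h3 x) ?_
    simp only [Module.End.mul_apply, ← h4]

end Ad

section Lab

variable {ι : Type} [Fintype ι] [DecidableEq ι] {Φ : Frm} {pr : ι → ℕ} {P : ℕ} {i1 : ι}

omit [Fintype ι] in
theorem chi_prod (z : Ax0) (hp : ∀ i, pr i ≠ 0) (S : Finset ι) (h : Ga) :
    chi ((∏ i ∈ S, pr i : ℕ) : ℤ) h = ∑ i ∈ S, chi (pr i) h := by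
  induction S using Finset.induction_on with
  | empty =>
    have := z.cmul' 1 1 h one_ne_zero one_ne_zero
    rw [mul_one] at this
    simpa using left_eq_add.1 this
  | insert a S ha ih =>
    rw [prod_insert ha, sum_insert ha, Nat.cast_mul, z.cmul', ih]
    · exact_mod_cast hp a
    · exact_mod_cast prod_ne_zero_iff.2 fun i _ => hp i

theorem rs5 (a b : F2) : (5 * QR.rs a b % 8 % 4 = 3 ↔ a = 1) ∧
    ((5 * QR.rs a b % 8 = 3 ∨ 5 * QR.rs a b % 8 = 5) ↔ b = 0) ∧ 5 * QR.rs a b % 8 % 2 = 1 := by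
  revert a b
  decide

theorem lab (hD : SDEC) (X : Ax1 Φ) (hL : Lb pr P i1) :
    Squarefree (dd pr P) ∧ Odd (dd pr P) ∧ 1 < dd pr P ∧
      (dd pr P).primeFactors = SP pr P ∧ Gd 0 P ∧ lev P = 0 ∧ eps P = 0 ∧ lev (pr i1) = 0 ∧
      eps (pr i1) = 0 ∧ eps (dd pr P) = ∑ i, eps (pr i) ∧
      ((dd pr P % 8 = 3 ∨ dd pr P % 8 = 5) ↔ Even (univ.filter fun i => lev (pr i) = 0).card) ∧
      (∀ h, chi (dd pr P) h = chi P h + ∑ i, chi (pr i) h) ∧
      ∀ l, l.Prime → (chi (dd pr P) (Φ.sg l) = 1 ↔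
        l = P ∨ (∃ i, l = pr i) ∨ (l = 2 ∧ dd pr P % 4 = 3)) := by
  have hm := hL.md
  have hm1 := hL.five
  have hP : Gd 0 P := ⟨hL.prime, by omega, Nat.zero_le _⟩
  have hnm : P ∉ univ.image pr := by
    rw [mem_image]
    rintro ⟨i, -, e⟩
    exact hL.ne i e
  have hpr : ∀ q ∈ SP pr P, q.Prime := by
    intro q hq
    rcases mem_insert.1 hq with rfl | hq
    · exact hL.prime
    · obtain ⟨i, -, rfl⟩ := mem_image.1 hq
      exact (hL.odd i).1
  have e : dd pr P = ∏ q ∈ SP pr P, q := by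
    unfold SP dd
    rw [prod_insert hnm, prod_image (fun a _ b _ e => hL.inj e)]
  have hsq : Squarefree (dd pr P) := by
    rw [e]
    refine Finset.squarefree_prod_of_pairwise_isCoprime ?_ (fun q hq => (hpr q hq).prime.squarefree)
    intro a ha b hb hab
    exact Nat.coprime_iff_isRelPrime.1 ((Nat.coprime_primes (hpr a ha) (hpr b hb)).2 hab)
  have hpf : (dd pr P).primeFactors = SP pr P := by
    rw [e]
    exact Nat.primeFactors_prod hpr
  have h8 : dd pr P % 8 = 5 * QR.rs (∑ i, eps (pr i)) (∑ i, QR.dl (pr i)) % 8 := by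
    unfold dd
    rw [Nat.mul_mod, QR.prod8 hD pr hL.odd, hm]
  obtain ⟨r1, r2, r3⟩ := rs5 (∑ i, eps (pr i)) (∑ i, QR.dl (pr i))
  rw [← h8] at r1 r2 r3
  have hodd : Odd (dd pr P) := Nat.odd_iff.2 (by omega)
  have h0 : dd pr P ≠ 0 := hsq.ne_zero
  have hle : P ≤ dd pr P := Nat.le_of_dvd (Nat.pos_of_ne_zero h0) (Dvd.intro _ rfl)
  refine ⟨hsq, hodd, hL.prime.one_lt.trans_le hle, hpf, hP,
    (hD.cls P (QR.odd hP) hL.prime.one_lt).1.2 (Or.inr hm), if_neg (by omega),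
    (hD.cls _ (QR.odd (hL.odd i1)) (hL.odd i1).1.one_lt).1.2 (Or.inr hm1), if_neg (by omega),
    ?_, ?_, fun h => ?_, fun l hl => ?_⟩
  · unfold eps at r1 ⊢
    by_cases h4 : dd pr P % 4 = 3
    · rw [if_pos h4, r1.1 (by omega)]
    · rw [if_neg h4]
      exact ((QR.f2_cases _).resolve_right fun h => h4 (by have := r1.2 h; omega)).symm
  · rw [r2]
    unfold QR.dl
    rw [Finset.sum_boole, ZMod.natCast_eq_zero_iff_even]
  · unfold dd
    rw [Nat.cast_mul, X.z.cmul', chi_prod X.z fun i => (hL.odd i).1.ne_zero]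
    · exact_mod_cast hL.prime.ne_zero
    · exact_mod_cast prod_ne_zero_iff.2 fun i _ => (hL.odd i).1.ne_zero
  · by_cases h2 : l = 2
    · subst h2
      rw [(X.v.codd _ hodd).1]
      unfold eps
      constructor
      · intro h
        refine Or.inr (Or.inr ⟨rfl, ?_⟩)
        by_contra h4
        rw [if_neg h4] at h
        exact zero_ne_one h
      · rintro (h | ⟨i, h⟩ | h)
        · omega
        · exact absurd h.symm (hL.odd i).2.1
        · exact if_pos h.2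
    · have : Fact l.Prime := ⟨hl⟩
      rw [X.v.csg l _ ⟨hl, h2, Nat.zero_le _⟩ (by exact_mod_cast h0), padicValInt.of_nat]
      have h1 : l ∣ dd pr P ↔ l = P ∨ (∃ i, l = pr i) ∨ (l = 2 ∧ dd pr P % 4 = 3) := by
        rw [← and_iff_left h0 (a := l ∣ dd pr P), ← and_iff_right hl (b := _ ∧ _),
          ← Nat.mem_primeFactors, hpf]
        simp [SP, h2, eq_comm]
      rw [← h1]
      have h3 : padicValNat l (dd pr P) ≤ 1 := by
        rw [← Nat.factorization_def _ hl]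
        exact hsq.natFactorization_le_one l
      constructor
      · intro h
        refine dvd_of_one_le_padicValNat (Nat.one_le_iff_ne_zero.2 fun h' => ?_)
        rw [h'] at h
        exact zero_ne_one (Nat.cast_zero.symm.trans h)
      · intro h
        rw [le_antisymm h3 (one_le_padicValNat_of_dvd h0 h), Nat.cast_one]

end Lab

end CC

theorem rowCC : OfCC := fun hD _ =>
  { acn := fun _ _ _ _ _ _ z hA =>
      ⟨fun h _ hx => CC.acn_mem hA.1 h hx, CC.acn_can hA, CC.acn_mul z hA⟩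
    one := fun _ _ _ _ _ _ _ _ _ z h => CC.one_mem z h
    mono := fun _ _ _ _ _ _ _ _ _ _ hA h => CC.mono hA h
    add := fun _ _ _ _ _ _ _ _ _ _ z h h' =>
      ⟨CC.add z h h', by rw [sub_eq_add_neg]; exact CC.add z h (CC.neg h')⟩
    cng := fun _ _ _ _ _ _ _ _ _ _ _ hT hψ h => CC.cng hT hψ h
    map := fun _ _ _ _ _ _ _ _ _ _ _ _ _ _ hT h1 h2 h3 h => CC.map hT h1 h2 h3 h
    lvl := fun _ _ _ _ _ _ _ _ _ _ z hA hA' h => CC.lvl z hA hA' h
    dbl := fun _ _ _ _ _ _ _ _ _ h => CC.dbl h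
    hlf := fun _ _ _ _ _ _ _ _ _ _ tf h => CC.hlf tf h
    odd := fun _ _ _ _ _ _ _ _ _ _ X _ h hl hc => CC.odd X h hl hc
    inf := fun _ _ _ _ _ _ _ _ _ X hA h => CC.inf X hA h
    det := fun _ _ _ _ _ _ _ _ _ _ X hA hW hT hP h5 h hs => CC.det hD X hA hW hT hP h5 h hs
    lab := fun _ _ _ _ _ _ _ X hL => CC.lab hD X hL
    adm := fun _ _ T _ _ _ h =>
      ⟨fun _ _ hn => ⟨fun _ hx => CC.Mu_map T hx, CC.pow_Mu' h hn⟩, fun _ x hn => CC.gs_Mu h x hn,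
        fun _ x hi => CC.pow_Mu' h (by omega) x, fun _ hi => CC.ex_v h hi⟩ }

end Pool.Agent.MP_1246c0_nt.H25
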