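import Pool.Agent.MP_1246c0_nt.H25.SpecN

/-! The lower bounds for the number of prime factors hold for most integers. -/

namespace Pool.Agent.MP_1246c0_nt.H25

open Finset Filter
open Pool.Agent.MP_1246c0_nt.H12

namespace NL

/-- the sieve bound -/
def Few (C : ℝ) : Prop :=
  ∀ (x t : ℕ) (R : Finset ℕ), (∀ p ∈ R, p.Prime ∧ p ≤ x) →
    ({d : ℕ | d ≤ x ∧ Squarefree d ∧ (R.filter (· ∣ d)).card ≤ t}.ncard : ℝ) ≤
      C * x * 2 ^ t * Real.exp (-(∑ p ∈ R, 1 / (p : ℝ)) / 2)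

/-- the mass of a residue class -/
def Cls (C : ℝ) : Prop :=
  ∀ k b y x : ℕ, 1 ≤ k → Odd b → b < 2 ^ k → 3 ≤ y → y ≤ x →
    ((k : ℝ) + 1) ^ 10 ≤ Real.log y →
    2 / 2 ^ k * (ll x - ll y) - C ≤ RS y x fun p => p % 2 ^ k = b

theorem fin_le (x : ℕ) {S : Set ℕ} (h : ∀ d ∈ S, d ≤ x) : S.Finite :=
  (Set.finite_Iic x).subset h

theorem ub {ι : Type} (s : Finset ι) (S : Set ℕ) (T : ι → Set ℕ) (x : ℕ)
    (hT : ∀ i, ∀ d ∈ T i, d ≤ x) (h : ∀ d ∈ S, ∃ i ∈ s, d ∈ T i) :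
    (S.ncard : ℝ) ≤ ∑ i ∈ s, ((T i).ncard : ℝ) := by
  have h1 : S.ncard ≤ (⋃ i ∈ s, T i).ncard := by
    refine Set.ncard_le_ncard (fun d hd => ?_) (fin_le x fun d hd => ?_)
    · obtain ⟨i, hi, hd⟩ := h d hd
      exact Set.mem_biUnion hi hd
    · simp only [Set.mem_iUnion] at hd
      obtain ⟨i, _, hd⟩ := hd
      exact hT i d hd
  exact_mod_cast h1.trans (s.set_ncard_biUnion_le T)

theorem few1 {C : ℝ} (h0 : 0 ≤ C) (hC : Few C) (x w y z t : ℕ) (Q : ℕ → Prop) (M : ℝ)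
    (hz : z ≤ x / w) (hM : M ≤ RS y z Q) (S : Set ℕ)
    (hS : ∀ d ∈ S, d ≤ x ∧ Squarefree d ∧ w ∣ d ∧ ∃ F : Finset ℕ, F.card ≤ t ∧
      ∀ p, p.Prime → y < p → p ≤ z → Q p → p ∣ d → p ∈ F) :
    (S.ncard : ℝ) ≤ C * (x / w) * 2 ^ t * Real.exp (-M / 2) := by
  classical
  set R := (Ioc y z).filter fun p => p.Prime ∧ Q p with hR
  have e : RS y z Q = ∑ p ∈ R, 1 / (p : ℝ) := by
    unfold RS
    congr 1
  have h1 := hC (x / w) t R fun p hp => by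
    rw [hR, mem_filter, mem_Ioc] at hp
    exact ⟨hp.2.1, hp.1.2.trans hz⟩
  have h2 : S.ncard ≤
      {d : ℕ | d ≤ x / w ∧ Squarefree d ∧ (R.filter (· ∣ d)).card ≤ t}.ncard := by
    refine Set.ncard_le_ncard_of_injOn (· / w) (fun d hd => ?_) (fun d hd d' hd' e => ?_)
      (fin_le (x / w) fun d hd => hd.1)
    · obtain ⟨a, b, c, F, hF, hp⟩ := hS d hd
      have hdv : d / w ∣ d := Nat.div_dvd_of_dvd c
      refine ⟨Nat.div_le_div_right a, b.squarefree_of_dvd hdv, le_trans (card_le_card ?_) hF⟩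
      intro p h
      rw [mem_filter, hR, mem_filter, mem_Ioc] at h
      exact hp p h.1.2.1 h.1.1.1 h.1.1.2 h.1.2.2 (h.2.trans hdv)
    · have c := (hS d hd).2.2.1
      have c' := (hS d' hd').2.2.1
      rw [← Nat.div_mul_cancel c, ← Nat.div_mul_cancel c']
      exact congrArg (· * w) e
  refine (Nat.cast_le.2 h2).trans (h1.trans ?_)
  have h3 : ((x / w : ℕ) : ℝ) ≤ x / w := Nat.cast_div_le
  have h4 : Real.exp (-(∑ p ∈ R, 1 / (p : ℝ)) / 2) ≤ Real.exp (-M / 2) := by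
    rw [← e]
    exact Real.exp_le_exp.2 (by linarith)
  gcongr

theorem pow_exp (t : ℕ) (ht : 0 < t) : (2 : ℝ) ^ t * Real.exp (-(4 * t) / 2) ≤ 1 / t := by
  have h1 : (2 : ℝ) ^ t ≤ Real.exp t := by
    have := Real.exp_nat_mul 1 t
    rw [mul_one] at this
    rw [this]
    exact pow_le_pow_left₀ (by norm_num) (by linarith [Real.add_one_le_exp (1 : ℝ)]) t
  have h2 : (t : ℝ) ≤ Real.exp t := by linarith [Real.add_one_le_exp (t : ℝ)]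
  have h3 : Real.exp t * Real.exp t * Real.exp (-(4 * t) / 2) = 1 := by
    rw [← Real.exp_add, ← Real.exp_add, ← Real.exp_zero]
    congr 1
    ring
  have h4 : (0 : ℝ) < t := by exact_mod_cast ht
  rw [le_div_iff₀ h4, ← h3]
  have h5 := Real.exp_pos (-(4 * (t : ℝ)) / 2)
  calc (2 : ℝ) ^ t * Real.exp (-(4 * t) / 2) * t = 2 ^ t * t * Real.exp (-(4 * t) / 2) := by ring
    _ ≤ _ := by gcongr

theorem few2 {C : ℝ} (h0 : 0 ≤ C) (hC : Few C) (x y z t : ℕ) (Q : ℕ → Prop) (ht : 0 < t)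
    (hz : z ≤ x) (hM : 4 * (t : ℝ) ≤ RS y z Q) (S : Set ℕ)
    (hS : ∀ d ∈ S, d ≤ x ∧ Squarefree d ∧ ∃ F : Finset ℕ, F.card ≤ t ∧
      ∀ p, p.Prime → y < p → p ≤ z → Q p → p ∣ d → p ∈ F) :
    (S.ncard : ℝ) ≤ C * x / t := by
  have h := few1 h0 hC x 1 y z t Q _ (by simpa using hz) hM S fun d hd =>
    ⟨(hS d hd).1, (hS d hd).2.1, one_dvd d, (hS d hd).2.2⟩
  refine h.trans ?_
  have h1 := pow_exp t ht
  calc C * (x / (1 : ℕ)) * 2 ^ t * Real.exp (-(4 * t) / 2)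
      = C * x * (2 ^ t * Real.exp (-(4 * t) / 2)) := by push_cast; ring
    _ ≤ C * x * (1 / t) := by gcongr
    _ = _ := by ring

theorem sq_le (n : ℕ) : n ^ 2 ≤ 2 ^ (n + 1) := by
  induction n with
  | zero => simp
  | succ n ih =>
    have h : n < 2 ^ n := Nat.lt_two_pow_self
    have e : 2 ^ (n + 1 + 1) = 2 ^ (n + 1) + 2 * 2 ^ n := by ring
    nlinarith

/-- the size of the parameters -/
structure Pm (X j0 : ℕ) (K : ℝ) : Prop where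
  k1 : K ≤ ll X
  r1 : 48 ≤ ll X
  t1 : (2 : ℝ) ^ (tpX X j0 + j0 + 5) ≤ ll X
  t2 : K ≤ tpX X j0
  t3 : K * (Real.log (ll X) + 1) * 2 ^ (tpX X j0 / 2) ≤ ll X
  t4 : ((tpX X j0 : ℝ) + 4) ^ 10 ≤ Real.log (YY X)
  l0 : 0 ≤ Real.log (ll X)
  l1 : 48 * (Real.log (ll X) + 1) ≤ ll X
  y3 : 3 ≤ YY X
  yz : YY X ≤ Z1 X
  zy : Z1 X ≤ Y2 X
  ys : Y2 X ≤ X.sqrt
  ym : YY X ^ m0 X ≤ X.sqrt
  a1 : ll X ^ 5 ≤ Real.log (YY X)
  a2 : Real.log (YY X) ≤ ll X ^ 5 + 1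
  a3 : ll (YY X) ≤ 6 * Real.log (ll X)
  a4 : ll X / 4 ≤ ll (Z1 X)
  a5 : ll (Y2 X) ≤ 2 / 3 * ll X
  a6 : ll X - 1 ≤ ll X.sqrt

theorem par (h1 : SPRM) (h2 : SPR2) (j0 : ℕ) (K : ℝ) : ∀ᶠ X : ℕ in atTop, Pm X j0 K := by
  filter_upwards [h1 j0 K, h1 j0 48, h2 0] with X a b c
  obtain ⟨k1, -, -, -, t1, -, t2, -, -, -, -, -, t3, -⟩ := a
  obtain ⟨r1, -, -, -, -, -, -, -, -, -, -, -, t5, -⟩ := b
  obtain ⟨-, y3, yz, -, zy, ys, ym, a1, a2, a3, a4, a5, a6, -⟩ := c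
  have l0 : 0 ≤ Real.log (ll X) := Real.log_nonneg (by linarith)
  refine ⟨k1, r1, t1, t2, t3, le_trans ?_ a1, l0, le_trans ?_ t5, y3, yz, zy, ys, ym, a1, a2, a3,
    a4, a5, a6⟩
  · have h : ((tpX X j0 : ℝ) + 4) ^ 2 ≤ ll X := by
      refine le_trans ?_ t1
      have := (sq_le (tpX X j0 + 4)).trans
        (Nat.pow_le_pow_right (by norm_num) (show tpX X j0 + 4 + 1 ≤ tpX X j0 + j0 + 5 by omega))
      exact_mod_cast this
    calc ((tpX X j0 : ℝ) + 4) ^ 10 = (((tpX X j0 : ℝ) + 4) ^ 2) ^ 5 := by ring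
      _ ≤ _ := by gcongr
  · exact le_mul_of_one_le_right (by linarith) (one_le_pow₀ (by norm_num))

theorem Pm.sx {X j0 : ℕ} {K : ℝ} (P : Pm X j0 K) : YY X ≤ X.sqrt := P.yz.trans (P.zy.trans P.ys)

theorem odd_of_mod {p k b : ℕ} (hb : Odd b) (h : p % 2 ^ (k + 1) = b) : p % 2 = 1 := by
  rw [← Nat.mod_mod_of_dvd p (dvd_pow_self 2 (Nat.succ_ne_zero k)), h]
  exact Nat.odd_iff.1 hb

theorem geo (n : ℕ) : ∑ a ∈ range (n + 1), (1 : ℝ) / 2 ^ (n - a) ≤ 2 := by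
  rw [sum_flip fun a => (1 : ℝ) / 2 ^ a]
  simpa [one_div, inv_pow] using sum_geometric_two_le (n + 1)

/-! ### The classes -/

theorem cnt1 (hd : SDEC) {C C' : ℝ} (h0 : 0 ≤ C) (hC : Few C) (hC' : Cls C') {X j0 : ℕ} {K : ℝ}
    (P : Pm X j0 K) (hj : C' ≤ 2 ^ j0) (a : ℕ) (ha : a ≤ tpX X j0) (e : F2) :
    ({d : ℕ | d ≤ X ∧ Squarefree d ∧ ((bg X d).filter fun l => lev l = a ∧ eps l = e).card ≤
      2 ^ jj (tpX X j0) j0 a}.ncard : ℝ) ≤ C * X / 2 ^ j0 * (1 / 2 ^ (tpX X j0 - a)) := by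
  have hp : 0 < 2 ^ (a + 1) := by positivity
  have e2 : 2 ^ (a + 2) = 2 * 2 ^ (a + 1) := by ring
  have e3 : 2 ^ (a + 3) = 4 * 2 ^ (a + 1) := by ring
  obtain ⟨b, hb, hlt, hcl⟩ : ∃ b, Odd b ∧ b < 2 ^ (a + 3) ∧
      ∀ p, 1 < p → p % 2 = 1 → p % 2 ^ (a + 3) = b → lev p = a ∧ eps p = e := by
    have he : e = 0 ∨ e = 1 := by revert e; decide
    rcases he with rfl | rfl
    · exact ⟨2 ^ (a + 2) + 1, Nat.odd_iff.2 (by omega), by omega,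
        fun p h1 h2 h => ((hd.cls p h2 h1).2.2 a).2.2.1.2 h⟩
    · exact ⟨2 ^ (a + 2) - 1, Nat.odd_iff.2 (by omega), by omega,
        fun p h1 h2 h => ((hd.cls p h2 h1).2.2 a).2.2.2.2 h⟩
  have hYX : YY X ≤ X := P.sx.trans (Nat.sqrt_le_self X)
  have hm := hC' (a + 3) b (YY X) X (by omega) hb hlt P.y3 hYX (by
    refine le_trans ?_ P.t4
    have : (a : ℝ) ≤ tpX X j0 := by exact_mod_cast ha
    push_cast
    exact pow_le_pow_left₀ (by positivity) (by linarith) 10)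
  have ej : jj (tpX X j0) j0 a = j0 + (tpX X j0 - a) := by unfold jj; omega
  have h := few2 h0 hC X (YY X) X (2 ^ jj (tpX X j0) j0 a) (fun p => p % 2 ^ (a + 3) = b)
    (by positivity) le_rfl (le_trans ?_ hm)
    {d : ℕ | d ≤ X ∧ Squarefree d ∧ ((bg X d).filter fun l => lev l = a ∧ eps l = e).card ≤
      2 ^ jj (tpX X j0) j0 a} fun d h => ⟨h.1, h.2.1, _, h.2.2, fun p p1 p2 _ p4 p5 => by
        rw [mem_filter, bg, mem_filter, Nat.mem_primeFactors]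
        exact ⟨⟨⟨p1, p5, h.2.1.ne_zero⟩, p2⟩, hcl p p1.one_lt (odd_of_mod hb p4) p4⟩⟩
  · refine h.trans (le_of_eq ?_)
    rw [ej]
    push_cast
    rw [pow_add]
    field_simp
  · have t1 := P.t1
    have et : tpX X j0 + j0 + 5 = jj (tpX X j0) j0 a + (a + 3) + 2 := by unfold jj; omega
    rw [et, pow_add, pow_add] at t1
    have hj' : (2 : ℝ) ^ j0 ≤ 2 ^ jj (tpX X j0) j0 a :=
      pow_le_pow_right₀ (by norm_num) (by omega)
    have hN : (0 : ℝ) < 2 ^ (a + 3) := by positivity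
    have h7 : 7 / 2 * ((2 : ℝ) ^ jj (tpX X j0) j0 a * 2 ^ (a + 3)) ≤ ll X - ll (YY X) := by
      linarith [P.a3, P.l1]
    have h8 : 7 * (2 : ℝ) ^ jj (tpX X j0) j0 a ≤ 2 / 2 ^ (a + 3) * (ll X - ll (YY X)) := by
      rw [div_mul_eq_mul_div, le_div_iff₀ hN]
      linarith
    have h9 : (0 : ℝ) < 2 ^ j0 := by positivity
    push_cast
    linarith

theorem cnt2 (hd : SDEC) {C C' : ℝ} (h0 : 0 ≤ C) (hC : Few C) (hC' : Cls C') {X j0 : ℕ} {K : ℝ}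
    (P : Pm X j0 K) (hj : C' ≤ 2 ^ j0) :
    ({d : ℕ | d ≤ X ∧ Squarefree d ∧ ¬∀ a ≤ tpX X j0, ∀ e : F2, 2 ^ jj (tpX X j0) j0 a <
      ((bg X d).filter fun l => lev l = a ∧ eps l = e).card}.ncard : ℝ) ≤ 4 * C / 2 ^ j0 * X := by
  have h := ub (range (tpX X j0 + 1) ×ˢ (univ : Finset F2))
    {d : ℕ | d ≤ X ∧ Squarefree d ∧ ¬∀ a ≤ tpX X j0, ∀ e : F2, 2 ^ jj (tpX X j0) j0 a <
      ((bg X d).filter fun l => lev l = a ∧ eps l = e).card}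
    (fun i => {d : ℕ | d ≤ X ∧ Squarefree d ∧
      ((bg X d).filter fun l => lev l = i.1 ∧ eps l = i.2).card ≤ 2 ^ jj (tpX X j0) j0 i.1}) X
    (fun i d h => h.1) fun d h => by
      obtain ⟨h1, h2, h3⟩ := h
      push Not at h3
      obtain ⟨a, ha, e, h3⟩ := h3
      exact ⟨(a, e), by simp; omega, h1, h2, h3⟩
  refine h.trans ((sum_le_sum fun i hi => cnt1 hd h0 hC hC' P hj i.1 (by
    have := mem_range.1 (mem_product.1 hi).1
    omega) i.2).trans ?_)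
  rw [sum_product]
  simp only [sum_const, card_univ, ZMod.card, nsmul_eq_mul]
  rw [← mul_sum, ← mul_sum]
  have := geo (tpX X j0)
  calc ((2 : ℕ) : ℝ) * (C * X / 2 ^ j0 * ∑ a ∈ range (tpX X j0 + 1), 1 / 2 ^ (tpX X j0 - a))
      ≤ (2 : ℕ) * (C * X / 2 ^ j0 * 2) := by gcongr
    _ = _ := by push_cast; ring

/-! ### The windows -/

theorem win {C C' : ℝ} (h0 : 0 ≤ C) (hC : Few C) (h0' : 0 ≤ C') (hC' : Cls C') {X j0 : ℕ}
    {K η : ℝ} (P : Pm X j0 K) (n y z : ℕ) (hy : YY X ≤ y) (hyz : y ≤ z) (hz : z ≤ X)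
    (hl : ll X / 8 ≤ ll z - ll y) (hη : 0 < η) (k1 : ((n : ℝ) + 4) ^ 2 ≤ K)
    (k2 : 4 * 2 ^ (n + 3) * (4 + C') ≤ K) (k3 : 2 * (C / η) ≤ K) (S : Set ℕ)
    (hS : ∀ d ∈ S, d ≤ X ∧ Squarefree d ∧ ∃ F : Finset ℕ, F.card ≤ 2 ^ (tpX X j0 / 2) ∧
      ∀ p, p.Prime → y < p → p ≤ z → p % 2 ^ (n + 3) = 1 → p ∣ d → p ∈ F) :
    (S.ncard : ℝ) ≤ η * X := by
  have hm := hC' (n + 3) 1 y z (by omega) odd_one (Nat.one_lt_two_pow (by omega))
    (P.y3.trans hy) hyz (by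
      have h1 : Real.log (YY X) ≤ Real.log y :=
        Real.log_le_log (by have := P.y3; positivity) (by exact_mod_cast hy)
      refine le_trans ?_ (P.a1.trans h1)
      have := k1.trans P.k1
      calc (((n + 3 : ℕ) : ℝ) + 1) ^ 10 = (((n : ℝ) + 4) ^ 2) ^ 5 := by push_cast; ring
        _ ≤ _ := by gcongr)
  have ht : (1 : ℝ) ≤ 2 ^ (tpX X j0 / 2) := one_le_pow₀ (by norm_num)
  have hN : (0 : ℝ) < 2 ^ (n + 3) := by positivity
  have h := few2 h0 hC X y z (2 ^ (tpX X j0 / 2)) (fun p => p % 2 ^ (n + 3) = 1) (by positivity)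
    hz (le_trans ?_ hm) S hS
  · refine h.trans ?_
    have h1 : tpX X j0 ≤ 2 * 2 ^ (tpX X j0 / 2) := by
      have : tpX X j0 / 2 < 2 ^ (tpX X j0 / 2) := Nat.lt_two_pow_self
      omega
    have h2 : C / η ≤ ((2 ^ (tpX X j0 / 2) : ℕ) : ℝ) := by
      have : (tpX X j0 : ℝ) ≤ 2 * ((2 ^ (tpX X j0 / 2) : ℕ) : ℝ) := by exact_mod_cast h1
      linarith [P.t2]
    rw [div_le_iff₀ hη] at h2
    rw [div_le_iff₀ (by positivity)]
    calc C * X ≤ ((2 ^ (tpX X j0 / 2) : ℕ) : ℝ) * η * X := by gcongr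
      _ = _ := by ring
  · have hK : 0 ≤ K := le_trans (by positivity) k1
    have h1 : K * 2 ^ (tpX X j0 / 2) ≤ ll X := by
      refine le_trans ?_ P.t3
      gcongr
      exact le_mul_of_one_le_right hK (by linarith [P.l0])
    have h2 : 4 * 2 ^ (n + 3) * (4 + C') * 2 ^ (tpX X j0 / 2) ≤ ll X :=
      le_trans (by gcongr) h1
    have h3 : (4 + C') * 2 ^ (tpX X j0 / 2) ≤ 2 / 2 ^ (n + 3) * (ll z - ll y) := by
      rw [div_mul_eq_mul_div, le_div_iff₀ hN]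
      linarith
    have h4 : C' ≤ C' * 2 ^ (tpX X j0 / 2) := le_mul_of_one_le_right h0' ht
    push_cast
    linarith

/-! ### A small prime in the class five -/

theorem five {C C' : ℝ} (h0 : 0 ≤ C) (hC : Few C) (hC' : Cls C') {X j0 : ℕ} {K L : ℝ}
    (P : Pm X j0 K) (y : ℕ) (y3 : 3 ≤ y) (hy : (4 : ℝ) ^ 10 ≤ Real.log y)
    (k1 : Real.log y ≤ K) (k2 : Real.exp (ll y + 4 * C' + 8 * L) ≤ K) :
    ({d : ℕ | d ≤ X ∧ Squarefree d ∧ ¬∃ l ∈ sm X d, l % 8 = 5}.ncard : ℝ) ≤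
      C * Real.exp (-L) * X := by
  have r1 := P.r1
  have h5 : ll X ≤ Real.log (YY X) := le_trans (le_self_pow₀ (by linarith) (by norm_num)) P.a1
  have hY : y ≤ YY X := by
    have := (Real.log_le_log_iff (by positivity) (by have := P.y3; positivity)).1
      (k1.trans (P.k1.trans h5))
    exact_mod_cast this
  have hm := hC' 3 5 y (YY X) (by norm_num) (by decide) (by norm_num) y3 hY (by
    refine le_trans (le_of_eq ?_) hy
    norm_num)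
  have h6 : ll y + 4 * C' + 8 * L ≤ ll (YY X) :=
    (Real.le_log_iff_exp_le (by linarith)).2 (k2.trans (P.k1.trans h5))
  have h := few1 h0 hC X 1 y (YY X) 0 (fun p => p % 2 ^ 3 = 5) (2 * L)
    (by simpa using P.sx.trans (Nat.sqrt_le_self X)) (le_trans (by norm_num; linarith) hm)
    {d : ℕ | d ≤ X ∧ Squarefree d ∧ ¬∃ l ∈ sm X d, l % 8 = 5} fun d h =>
      ⟨h.1, h.2.1, one_dvd d, ∅, le_rfl, fun p p1 _ p3 p4 p5 => (h.2.2 ⟨p, by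
        rw [sm, mem_filter, Nat.mem_primeFactors]
        exact ⟨⟨p1, p5, h.2.1.ne_zero⟩, p3⟩, p4⟩).elim⟩
  refine h.trans (le_of_eq ?_)
  rw [show -(2 * L) / 2 = -L by ring]
  push_cast
  ring

/-! ### Detection -/

/-- the mass of the detecting primes -/
def Det (C : ℝ) : Prop :=
  ∀ (k y x : ℕ) (W : Finset ℕ), 1 ≤ k → W.Nonempty → (∀ l ∈ W, Gd 0 l) →
    3 ≤ y → y ≤ x → ((k : ℝ) + 1) ^ 10 ≤ Real.log y → (W.card : ℝ) ≤ Real.log y →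
    1 / 2 ^ k * (ll x - ll y) - C * (Real.log (5 + k + ∑ l ∈ W, Real.log l) + ll y + 1) ≤
      RS y x fun p => p % 2 ^ k = 1 ∧ p ∉ W ∧ ∑ l ∈ W, lg p l = 1

theorem mass {C : ℝ} (h0 : 0 ≤ C) (hC : Det C) {X j0 : ℕ} {K A : ℝ} (P : Pm X j0 K)
    (k1 : 16 * (14 * C + A) ≤ K) (W : Finset ℕ) (hW : W ⊆ OP (YY X)) (hn : W.Nonempty)
    (hc : W.card ≤ m0 X) :
    A * (Real.log (ll X) + 1) ≤ RS (YY X) X.sqrt fun p => p % 2 ^ (tpX X j0 / 2 + 3) = 1 ∧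
      p ∉ W ∧ ∑ l ∈ W, lg p l = 1 := by
  have r1 := P.r1
  have l0 := P.l0
  have hW' : ∀ l ∈ W, l ≤ YY X ∧ l.Prime ∧ l ≠ 2 := fun l hl => by
    have := hW hl
    rw [OP, mem_filter, mem_range] at this
    exact ⟨by omega, this.2⟩
  have hc' : (W.card : ℝ) ≤ ll X ^ 2 :=
    le_trans (by exact_mod_cast hc) (Nat.floor_le (sq_nonneg (ll X)))
  have hk : ((tpX X j0 / 2 + 3 : ℕ) : ℝ) ≤ tpX X j0 + 3 := by
    exact_mod_cast (by omega : tpX X j0 / 2 + 3 ≤ tpX X j0 + 3)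
  have hm := hC (tpX X j0 / 2 + 3) (YY X) X.sqrt W (by omega) hn
    (fun l hl => ⟨(hW' l hl).2.1, (hW' l hl).2.2, Nat.zero_le _⟩) P.y3 P.sx (by
      exact le_trans (pow_le_pow_left₀ (by positivity) (by linarith) 10) P.t4)
    (hc'.trans (le_trans (pow_le_pow_right₀ (by linarith) (by norm_num)) P.a1))
  refine le_trans ?_ hm
  have h1 : ∑ l ∈ W, Real.log l ≤ ll X ^ 2 * (ll X ^ 5 + 1) := by
    have : ∑ l ∈ W, Real.log l ≤ W.card • (ll X ^ 5 + 1) :=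
      sum_le_card_nsmul _ _ _ fun l hl => le_trans (Real.log_le_log
        (by have := (hW' l hl).2.1.pos; positivity) (by exact_mod_cast (hW' l hl).1)) P.a2
    rw [nsmul_eq_mul] at this
    refine this.trans ?_
    gcongr
  have h2 : (tpX X j0 : ℝ) + 3 ≤ ll X := by
    refine le_trans ?_ P.t1
    have : tpX X j0 + j0 + 5 < 2 ^ (tpX X j0 + j0 + 5) := Nat.lt_two_pow_self
    exact_mod_cast (by omega : tpX X j0 + 3 ≤ 2 ^ (tpX X j0 + j0 + 5))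
  have h3 : 5 + ((tpX X j0 / 2 + 3 : ℕ) : ℝ) + ∑ l ∈ W, Real.log l ≤ ll X ^ 8 := by
    have a1 : ll X ≤ ll X ^ 7 := le_self_pow₀ (by linarith) (by norm_num)
    have a2 : ll X ^ 2 ≤ ll X ^ 7 := pow_le_pow_right₀ (by linarith) (by norm_num)
    have a3 : 4 * ll X ^ 7 ≤ ll X * ll X ^ 7 := by gcongr; linarith
    have a4 : ll X ^ 2 * (ll X ^ 5 + 1) = ll X ^ 7 + ll X ^ 2 := by ring
    have a5 : ll X ^ 8 = ll X * ll X ^ 7 := by ring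
    linarith
  have h4 : Real.log (5 + ((tpX X j0 / 2 + 3 : ℕ) : ℝ) + ∑ l ∈ W, Real.log l) ≤
      8 * Real.log (ll X) := by
    have hs : 0 ≤ ∑ l ∈ W, Real.log (l : ℕ) := sum_nonneg fun l _ => Real.log_natCast_nonneg l
    have := Real.log_le_log (by positivity) h3
    rwa [Real.log_pow] at this
  have h5 : C * (Real.log (5 + ((tpX X j0 / 2 + 3 : ℕ) : ℝ) + ∑ l ∈ W, Real.log l) + ll (YY X) + 1)
      ≤ C * (14 * (Real.log (ll X) + 1)) := by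
    gcongr
    linarith [P.a3]
  have h6 : 16 * (14 * C + A) * (Real.log (ll X) + 1) * 2 ^ (tpX X j0 / 2) ≤ ll X :=
    le_trans (by gcongr) P.t3
  have h7 : (14 * C + A) * (Real.log (ll X) + 1) ≤
      1 / 2 ^ (tpX X j0 / 2 + 3) * (ll X.sqrt - ll (YY X)) := by
    rw [div_mul_eq_mul_div, le_div_iff₀ (by positivity), pow_add]
    linarith [P.a3, P.a6, P.l1]
  linarith

theorem det (hd : SDEC) {C C' C'' : ℝ} (h0 : 0 ≤ C) (hC : Few C) (h0' : 0 ≤ C') (hC' : Det C')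
    (h0'' : 0 ≤ C'') (hT : ∀ x : ℕ, 3 ≤ x → RS 0 x (fun _ => True) ≤ ll x + C'') {X j0 : ℕ}
    {K L : ℝ} (P : Pm X j0 K) (hL : 0 ≤ L) (k1 : 16 * (14 * C' + (12 + 2 * C'' + 2 * L)) ≤ K) :
    ({d : ℕ | d ≤ X ∧ Squarefree d ∧ Odd d ∧ ¬∀ W ⊆ sm X d, W.Nonempty → W.card ≤ m0 X →
      ∃ l ∈ bg X d, tpX X j0 / 2 < lev l ∧ eps l = 0 ∧ ∑ l' ∈ W, lg l l' = 1}.ncard : ℝ) ≤
      C * Real.exp (-L) * X := by
  classical
  set M := (12 + 2 * C'' + 2 * L) * (Real.log (ll X) + 1) with hM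
  have h := ub ((OP (YY X)).powerset.filter fun W => W.Nonempty ∧ W.card ≤ m0 X)
    {d : ℕ | d ≤ X ∧ Squarefree d ∧ Odd d ∧ ¬∀ W ⊆ sm X d, W.Nonempty → W.card ≤ m0 X →
      ∃ l ∈ bg X d, tpX X j0 / 2 < lev l ∧ eps l = 0 ∧ ∑ l' ∈ W, lg l l' = 1}
    (fun W => {d : ℕ | d ≤ X ∧ Squarefree d ∧ ∏ l ∈ W, l ∣ d ∧
      ¬∃ l ∈ bg X d, tpX X j0 / 2 < lev l ∧ eps l = 0 ∧ ∑ l' ∈ W, lg l l' = 1}) X
    (fun i d h => h.1) fun d h => by
      obtain ⟨h1, h2, h3, h4⟩ := h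
      simp only [not_forall] at h4
      obtain ⟨W, hW, hn, hc, h4⟩ := h4
      have hW' : ∀ l ∈ W, (l.Prime ∧ l ∣ d ∧ d ≠ 0) ∧ l ≤ YY X := fun l hl => by
        have := hW hl
        rwa [sm, mem_filter, Nat.mem_primeFactors] at this
      refine ⟨W, mem_filter.2 ⟨mem_powerset.2 fun l hl => ?_, hn, hc⟩, h1, h2,
        prod_primes_dvd d (fun l hl => (hW' l hl).1.1.prime) fun l hl => (hW' l hl).1.2.1, h4⟩
      rw [OP, mem_filter, mem_range]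
      refine ⟨Nat.lt_succ_of_le (hW' l hl).2, (hW' l hl).1.1, ?_⟩
      rintro rfl
      exact (Nat.not_even_iff_odd.2 h3) (even_iff_two_dvd.2 (hW' 2 hl).1.2.1)
  have hOP : ∀ l ∈ OP (YY X), l ≤ YY X ∧ l.Prime := fun l hl => by
    rw [OP, mem_filter, mem_range] at hl
    exact ⟨by omega, hl.2.1⟩
  have h1 : ∀ W ∈ (OP (YY X)).powerset.filter fun W => W.Nonempty ∧ W.card ≤ m0 X,
      ({d : ℕ | d ≤ X ∧ Squarefree d ∧ ∏ l ∈ W, l ∣ d ∧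
        ¬∃ l ∈ bg X d, tpX X j0 / 2 < lev l ∧ eps l = 0 ∧ ∑ l' ∈ W, lg l l' = 1}.ncard : ℝ) ≤
      C * X * Real.exp (-M / 2) * ∏ l ∈ W, 1 / (l : ℝ) := fun W hW => by
    rw [mem_filter, mem_powerset] at hW
    obtain ⟨hW, hn, hc⟩ := hW
    have hw : 0 < ∏ l ∈ W, l := prod_pos fun l hl => (hOP l (hW hl)).2.pos
    have hw' : ∏ l ∈ W, l ≤ X.sqrt :=
      (prod_le_pow_card W (fun l => l) (YY X) fun l hl => (hOP l (hW hl)).1).trans
        ((Nat.pow_le_pow_right (by have := P.y3; omega) hc).trans P.ym)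
    refine le_trans (few1 h0 hC X (∏ l ∈ W, l) (YY X) X.sqrt 0 _ M ((Nat.le_div_iff_mul_le hw).2
      ((Nat.mul_le_mul_left _ hw').trans (Nat.sqrt_le X))) (mass h0' hC' P k1 W hW hn hc) _ ?_)
      (le_of_eq ?_)
    · intro d h
      refine ⟨h.1, h.2.1, h.2.2.1, ∅, le_rfl, fun p p1 p2 _ p4 p5 => (h.2.2.2 ?_).elim⟩
      have := ((hd.cls p (odd_of_mod odd_one p4.1) p1.one_lt).2.2 (tpX X j0 / 2 + 1)).1.2 p4.1
      refine ⟨p, ?_, this.1, this.2, p4.2.2⟩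
      rw [bg, mem_filter, Nat.mem_primeFactors]
      exact ⟨⟨p1, p5, h.2.1.ne_zero⟩, p2⟩
    · rw [prod_div_distrib, prod_const_one]
      push_cast
      ring
  refine h.trans ((sum_le_sum h1).trans ?_)
  rw [← mul_sum]
  have h2 : ∑ W ∈ (OP (YY X)).powerset.filter fun W => W.Nonempty ∧ W.card ≤ m0 X,
      ∏ l ∈ W, 1 / (l : ℝ) ≤ Real.exp (6 * Real.log (ll X) + C'') := by
    refine (sum_le_sum_of_subset_of_nonneg (filter_subset _ _) fun W _ _ => by positivity).trans ?_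
    rw [← prod_one_add]
    refine (Real.prod_one_add_le_exp_sum _ fun l => by positivity).trans (Real.exp_le_exp.2 ?_)
    refine le_trans ?_ ((hT _ P.y3).trans (by linarith [P.a3]))
    unfold RS
    refine sum_le_sum_of_subset_of_nonneg (fun l hl => ?_) fun l _ _ => by positivity
    simp only [mem_filter, mem_Ioc]
    exact ⟨⟨(hOP l hl).2.pos, (hOP l hl).1⟩, (hOP l hl).2, trivial⟩
  have h3 : Real.exp (-M / 2) * Real.exp (6 * Real.log (ll X) + C'') ≤ Real.exp (-L) := by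
    rw [← Real.exp_add]
    refine Real.exp_le_exp.2 ?_
    have := mul_nonneg (add_nonneg h0'' hL) P.l0
    rw [hM]
    linarith
  calc _ ≤ C * X * Real.exp (-M / 2) * Real.exp (6 * Real.log (ll X) + C'') := by gcongr
    _ = C * X * (Real.exp (-M / 2) * Real.exp (6 * Real.log (ll X) + C'')) := by ring
    _ ≤ C * X * Real.exp (-L) := by gcongr
    _ = _ := by ring

theorem u5 (S S1 S2 S3 S4 S5 : Set ℕ) (x : ℕ) (h : S ⊆ S1 ∪ S2 ∪ S3 ∪ S4 ∪ S5)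
    (hx : ∀ d ∈ S1 ∪ S2 ∪ S3 ∪ S4 ∪ S5, d ≤ x) :
    (S.ncard : ℝ) ≤ S1.ncard + S2.ncard + S3.ncard + S4.ncard + S5.ncard := by
  have h0 := Set.ncard_le_ncard h (fin_le x hx)
  have h1 := Set.ncard_union_le (S1 ∪ S2 ∪ S3 ∪ S4) S5
  have h2 := Set.ncard_union_le (S1 ∪ S2 ∪ S3) S4
  have h3 := Set.ncard_union_le (S1 ∪ S2) S3
  have h4 := Set.ncard_union_le S1 S2
  exact_mod_cast (by omega : S.ncard ≤ S1.ncard + S2.ncard + S3.ncard + S4.ncard + S5.ncard)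

end NL

open NL in
theorem rowNL : OfNL := by
  classical
  intro hd h1 h2 hw hh ε hε
  obtain ⟨C, c0, hC⟩ := hh.few
  obtain ⟨C1, c1, hC1⟩ := hw.cls
  obtain ⟨C2, c2, hC2⟩ := hw.det
  obtain ⟨C3, c3, hC3⟩ := hw.tot
  have hη : 0 < ε / 5 := by positivity
  obtain ⟨j1, hj1⟩ := pow_unbounded_of_one_lt (C1 + 4 * C / (ε / 5)) (one_lt_two (α := ℝ))
  obtain ⟨y, y3, hy⟩ : ∃ y : ℕ, 3 ≤ y ∧ (4 : ℝ) ^ 10 ≤ Real.log y :=
    ((eventually_ge_atTop 3).and ((Real.tendsto_log_atTop.comp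
      tendsto_natCast_atTop_atTop).eventually_ge_atTop _)).exists
  have hL : 0 ≤ C / (ε / 5) := by positivity
  have hLe : C * Real.exp (-(C / (ε / 5))) ≤ ε / 5 := by
    have a : C / (ε / 5) ≤ Real.exp (C / (ε / 5)) := by
      linarith [Real.add_one_le_exp (C / (ε / 5))]
    rw [div_le_iff₀ hη] at a
    rw [Real.exp_neg, ← div_eq_mul_inv, div_le_iff₀ (Real.exp_pos _)]
    linarith
  refine ⟨j1, fun j0 hj n => ?_⟩
  have hj2 : C1 + 4 * C / (ε / 5) ≤ 2 ^ j0 :=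
    hj1.le.trans (pow_le_pow_right₀ (by norm_num) hj)
  have hp : 0 ≤ 4 * C / (ε / 5) := by positivity
  obtain ⟨K, k1, k2, k3, k4, k5, k6⟩ : ∃ K : ℝ, ((n : ℝ) + 4) ^ 2 ≤ K ∧
      4 * 2 ^ (n + 3) * (4 + C1) ≤ K ∧ 2 * (C / (ε / 5)) ≤ K ∧ Real.log y ≤ K ∧
      Real.exp (ll y + 4 * C1 + 8 * (C / (ε / 5))) ≤ K ∧
      16 * (14 * C2 + (12 + 2 * C3 + 2 * (C / (ε / 5)))) ≤ K :=
    ((eventually_ge_atTop _).and ((eventually_ge_atTop _).and ((eventually_ge_atTop _).and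
      ((eventually_ge_atTop _).and ((eventually_ge_atTop _).and (eventually_ge_atTop _)))))).exists
  filter_upwards [par h1 h2 j0 K] with X P
  have hX : (0 : ℝ) ≤ X := Nat.cast_nonneg X
  have hs := Nat.sqrt_le_self X
  have b1 := cnt2 hd c0 hC hC1 P (by linarith)
  have b2 := det hd c0 hC c2 hC2 c3 hC3 P hL k6
  have b3 := five c0 hC hC1 P y y3 hy k4 k5
  have b4 := win c0 hC c1 hC1 P n (YY X) (Z1 X) le_rfl P.yz (P.zy.trans (P.ys.trans hs))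
    (by linarith [P.a3, P.a4, P.l1]) hη k1 k2 k3
    {d : ℕ | d ≤ X ∧ Squarefree d ∧ ¬2 ^ (tpX X j0 / 2) ≤ (d.primeFactors.filter (T1 X n)).card}
    fun d h => ⟨h.1, h.2.1, _, (not_le.1 h.2.2).le, fun p p1 p2 p3 p4 p5 =>
      mem_filter.2 ⟨Nat.mem_primeFactors.2 ⟨p1, p5, h.2.1.ne_zero⟩, p2, p3, p4⟩⟩
  have b5 := win c0 hC c1 hC1 P n (Y2 X) X.sqrt (P.yz.trans P.zy) P.ys hs
    (by linarith [P.a5, P.a6, P.r1]) hη k1 k2 k3
    {d : ℕ | d ≤ X ∧ Squarefree d ∧ ¬2 ^ (tpX X j0 / 2) ≤ (d.primeFactors.filter (T2 X n)).card}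
    fun d h => ⟨h.1, h.2.1, _, (not_le.1 h.2.2).le, fun p p1 p2 _ p4 p5 =>
      mem_filter.2 ⟨Nat.mem_primeFactors.2 ⟨p1, p5, h.2.1.ne_zero⟩, p2, p4⟩⟩
  have e1 : 4 * C / 2 ^ j0 * X ≤ ε / 5 * X := by
    refine mul_le_mul_of_nonneg_right ?_ hX
    have : 4 * C / (ε / 5) ≤ 2 ^ j0 := by linarith
    rw [div_le_iff₀ hη] at this
    rw [div_le_iff₀ (by positivity)]
    linarith
  have e2 : C * Real.exp (-(C / (ε / 5))) * X ≤ ε / 5 * X := by gcongr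
  refine (u5 _ _ _ _ _ _ X ?_ ?_).trans
    ((add_le_add (add_le_add (add_le_add (add_le_add b1 b2) b3) b4) b5).trans (by linarith))
  · rintro d ⟨d1, d2, d3, d4⟩
    by_contra hn
    simp only [Set.mem_union, Set.mem_ofPred_eq, not_or, not_and, not_not] at hn
    obtain ⟨⟨⟨⟨n1, n2⟩, n3⟩, n4⟩, n5⟩ := hn
    exact d4 ⟨n1 d1 d2, n2 d1 d2 d3, n3 d1 d2, n4 d1 d2, n5 d1 d2⟩
  · rintro d ((((h | h) | h) | h) | h) <;> exact h.1

end Pool.Agent.MP_1246c0_nt.H25
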